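import Mathlib
import Pool.Agent.Helper21.SR.St

/-! Project SR: module ASY, the asymptotic contradiction. -/

set_option autoImplicit false

namespace Pool.Agent.Helper12.SR

open Pool.Agent.Helper21.SR

/-- the logarithms are smaller than small powers -/
private theorem log_bd_ASY {N : ℕ} {u : ℝ} (hu : 1 ≤ u) (hN : 1 ≤ N)
    (h : (N : ℝ) ≤ 3 * u ^ ((4 : ℝ) / 3 + 1 / 290)) :
    (Nat.log 2 N : ℝ) + 2 ≤ 438486 * u ^ ((1 : ℝ) / 109620) := by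
  have hu0 : 0 < u := by linarith
  have hN0 : (0 : ℝ) < N := by exact_mod_cast hN
  set e : ℝ := u ^ ((1 : ℝ) / 109620) with he
  have he1 : 1 ≤ e := Real.one_le_rpow hu (by norm_num)
  have h1 : (Nat.log 2 N : ℝ) ≤ Real.logb 2 N := by
    have := Real.natLog_le_logb N 2
    exact_mod_cast this
  have h2 : Real.log N ≤ Real.log 3 + ((4 : ℝ) / 3 + 1 / 290) * Real.log u := by
    have h3 := Real.log_le_log hN0 h
    rwa [Real.log_mul (by norm_num) (by positivity), Real.log_rpow hu0] at h3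
  have h3 : Real.log 3 ≤ 2 := by
    have := Real.log_le_sub_one_of_pos (show (0 : ℝ) < 3 by norm_num)
    linarith
  have h4 : Real.log u ≤ 109620 * e := by
    have := Real.log_le_rpow_div hu0.le (show (0 : ℝ) < 1 / 109620 by norm_num)
    rw [← he] at this
    have e1 : e / (1 / 109620) = 109620 * e := by
      field_simp
    linarith
  have h0 : 0 ≤ Real.log u := Real.log_nonneg hu
  have h5 : Real.log N ≤ 219242 * e := by nlinarith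
  have h6 : Real.logb 2 N ≤ 438484 * e := by
    have hl2 : (1 : ℝ) / 2 ≤ Real.log 2 := by
      have := Real.log_two_gt_d9
      linarith
    rw [Real.logb, div_le_iff₀ (by linarith)]
    nlinarith
  linarith

/-- the chain of estimates -/
private theorem core_ASY {u a e C L L' N Q Er ρ M : ℝ} (hu : 1 ≤ u) (ha : u ^ 4 ≤ a ^ 3)
    (ha0 : 0 < a) (he : 1 ≤ e) (hC : 1 ≤ C) (hL : 1 ≤ L) (hLL : L ≤ L') (hL' : L' ≤ C * e)
    (hN : u ≤ N) (hN' : N ≤ 3 * a) (hQ : u ≤ Q) (hQ' : Q ≤ 3 * a)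
    (hM : 64 * L * N ^ 2 * Q / ((1 / 10 ^ 7) ^ 2 * u ^ 4) ≤ M)
    (hM' : M ≤ 64 * L * N ^ 2 * Q / ((1 / 10 ^ 7) ^ 2 * u ^ 4) + 3)
    (hρ0 : 0 ≤ ρ) (hρ : ρ ^ 2 = 2 ^ 26 * M ^ 6 * L' * Q)
    (h1 : M * Er ≤ 64 * L * N ^ 2)
    (h2 : u ^ 2 / 20000 ≤ N * Q * u ^ 8 * (ρ / (u * ((1 / 10 ^ 7) * u ^ 2 / Q))) ^ 9 +
      9 * u * (((1 / 10 ^ 7) * u ^ 2 / Q) * Q / u + Er / (u * ((1 / 10 ^ 7) * u ^ 2 / Q)))) :
    u ^ 258 ≤ 40000 ^ 2 * 81 * (9 * (2 ^ 26 * (64 * C * 27 * 10 ^ 14 + 3) ^ 6 * C * 3) * 10 ^ 14) ^ 9 *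
      a ^ 193 * e ^ 63 := by
  have hu0 : 0 < u := by linarith
  have hN0 : 0 < N := by linarith
  have hQ0 : 0 < Q := by linarith
  have hL0 : 0 < L := by linarith
  have he0 : 0 < e := by linarith
  have hC0 : 0 < C := by linarith
  have hL'0 : 0 ≤ L' := by linarith
  -- the last term
  have hX0 : 0 < 64 * L * N ^ 2 * Q / ((1 / 10 ^ 7) ^ 2 * u ^ 4) := by positivity
  have hM0 : 0 < M := by linarith
  have hE : Er ≤ (1 / 10 ^ 7) ^ 2 * u ^ 4 / Q := by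
    by_contra hcon
    push Not at hcon
    have h3 : M * ((1 / 10 ^ 7) ^ 2 * u ^ 4 / Q) < M * Er := mul_lt_mul_of_pos_left hcon hM0
    have h4 : 64 * L * N ^ 2 * Q / ((1 / 10 ^ 7) ^ 2 * u ^ 4) * ((1 / 10 ^ 7) ^ 2 * u ^ 4 / Q) ≤
        M * ((1 / 10 ^ 7) ^ 2 * u ^ 4 / Q) := mul_le_mul_of_nonneg_right hM (by positivity)
    have h5 : 64 * L * N ^ 2 * Q / ((1 / 10 ^ 7) ^ 2 * u ^ 4) * ((1 / 10 ^ 7) ^ 2 * u ^ 4 / Q) =
        64 * L * N ^ 2 := by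
      field_simp
    linarith
  have hE2 : Er / (u * ((1 / 10 ^ 7) * u ^ 2 / Q)) ≤ (1 / 10 ^ 7) * u := by
    rw [div_le_iff₀ (by positivity)]
    refine hE.trans (le_of_eq ?_)
    field_simp
  have hf : ((1 / 10 ^ 7) * u ^ 2 / Q) * Q / u = (1 / 10 ^ 7) * u := by
    field_simp
  rw [hf] at h2
  have h3 : 9 * u * ((1 / 10 ^ 7) * u + Er / (u * ((1 / 10 ^ 7) * u ^ 2 / Q))) ≤
      9 * u * ((1 / 10 ^ 7) * u + (1 / 10 ^ 7) * u) :=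
    mul_le_mul_of_nonneg_left (by linarith) (by positivity)
  set Y : ℝ := ρ / (u * ((1 / 10 ^ 7) * u ^ 2 / Q)) with hY
  have hY0 : 0 ≤ Y := by positivity
  have h4 : u ^ 2 / 40000 ≤ N * Q * u ^ 8 * Y ^ 9 := by
    have h5 : 9 * u * ((1 / 10 ^ 7) * u + (1 / 10 ^ 7) * u) ≤ u ^ 2 / 40000 := by
      have : 9 * u * ((1 / 10 ^ 7) * u + (1 / 10 ^ 7) * u) = 18 / 10 ^ 7 * u ^ 2 := by ring
      rw [this]
      have h0 : 0 ≤ u ^ 2 := by positivity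
      norm_num
      linarith
    linarith
  -- squares
  have h5 : (u ^ 2 / 40000) ^ 2 ≤ N ^ 2 * Q ^ 2 * u ^ 16 * (Y ^ 2) ^ 9 := by
    have h6 : (u ^ 2 / 40000) ^ 2 ≤ (N * Q * u ^ 8 * Y ^ 9) ^ 2 :=
      pow_le_pow_left₀ (by positivity) h4 2
    refine h6.trans (le_of_eq ?_)
    ring
  -- bound for M
  have hMb : M ≤ (64 * C * 27 * 10 ^ 14 + 3) * (e * a ^ 3 / u ^ 4) := by
    have g0 : 1 ≤ e * a ^ 3 / u ^ 4 := by
      rw [le_div_iff₀ (by positivity), one_mul]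
      have : 1 * a ^ 3 ≤ e * a ^ 3 := mul_le_mul_of_nonneg_right he (by positivity)
      linarith
    have g1 : 64 * L * N ^ 2 * Q / ((1 / 10 ^ 7) ^ 2 * u ^ 4) ≤
        64 * C * 27 * 10 ^ 14 * (e * a ^ 3 / u ^ 4) := by
      have g2 : 64 * L * N ^ 2 * Q ≤ 64 * (C * e) * (3 * a) ^ 2 * (3 * a) := by
        have g3 : L ≤ C * e := hLL.trans hL'
        gcongr
      have g4 : 64 * C * 27 * 10 ^ 14 * (e * a ^ 3 / u ^ 4) =
          64 * (C * e) * (3 * a) ^ 2 * (3 * a) / ((1 / 10 ^ 7) ^ 2 * u ^ 4) := by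
        field_simp
        ring
      rw [g4]
      exact div_le_div_of_nonneg_right g2 (by positivity)
    calc M ≤ 64 * L * N ^ 2 * Q / ((1 / 10 ^ 7) ^ 2 * u ^ 4) + 3 := hM'
      _ ≤ 64 * C * 27 * 10 ^ 14 * (e * a ^ 3 / u ^ 4) + 3 * (e * a ^ 3 / u ^ 4) := by linarith
      _ = _ := by ring
  set C3 : ℝ := 64 * C * 27 * 10 ^ 14 + 3 with hC3
  have hC30 : 0 < C3 := by positivity
  have hρb : ρ ^ 2 ≤ 2 ^ 26 * C3 ^ 6 * C * 3 * (e ^ 7 * a ^ 19 / u ^ 24) := by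
    rw [hρ]
    have g1 : 2 ^ 26 * M ^ 6 * L' * Q ≤
        2 ^ 26 * (C3 * (e * a ^ 3 / u ^ 4)) ^ 6 * (C * e) * (3 * a) := by
      gcongr
    refine g1.trans (le_of_eq ?_)
    field_simp
  set C4 : ℝ := 2 ^ 26 * C3 ^ 6 * C * 3 with hC4
  have hC40 : 0 < C4 := by positivity
  have hY2 : Y ^ 2 ≤ 9 * C4 * 10 ^ 14 * (e ^ 7 * a ^ 21 / u ^ 30) := by
    have g1 : Y ^ 2 = ρ ^ 2 * (Q ^ 2 * 10 ^ 14 / u ^ 6) := by
      rw [hY]
      field_simp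
    rw [g1]
    have g2 : Q ^ 2 ≤ (3 * a) ^ 2 := pow_le_pow_left₀ hQ0.le hQ' 2
    calc ρ ^ 2 * (Q ^ 2 * 10 ^ 14 / u ^ 6) ≤
        (C4 * (e ^ 7 * a ^ 19 / u ^ 24)) * ((3 * a) ^ 2 * 10 ^ 14 / u ^ 6) := by
          gcongr
      _ = 9 * C4 * 10 ^ 14 * (e ^ 7 * a ^ 21 / u ^ 30) := by
          field_simp
          ring
  have h7 : (u ^ 2 / 40000) ^ 2 ≤ (3 * a) ^ 2 * (3 * a) ^ 2 * u ^ 16 *
      (9 * C4 * 10 ^ 14 * (e ^ 7 * a ^ 21 / u ^ 30)) ^ 9 := by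
    refine h5.trans ?_
    gcongr
  have h8 : (3 * a) ^ 2 * (3 * a) ^ 2 * u ^ 16 *
      (9 * C4 * 10 ^ 14 * (e ^ 7 * a ^ 21 / u ^ 30)) ^ 9 =
      (81 * (9 * C4 * 10 ^ 14) ^ 9 * a ^ 193 * e ^ 63) / u ^ 254 := by
    have h8a : (9 * C4 * 10 ^ 14 * (e ^ 7 * a ^ 21 / u ^ 30)) ^ 9 =
        (9 * C4 * 10 ^ 14) ^ 9 * (e ^ 63 * a ^ 189 / u ^ 270) := by
      rw [mul_pow _ (e ^ 7 * a ^ 21 / u ^ 30), div_pow, mul_pow (e ^ 7), ← pow_mul, ← pow_mul,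
        ← pow_mul]
    rw [h8a]
    generalize (9 * C4 * 10 ^ 14) ^ 9 = D
    field_simp
    ring
  rw [h8, le_div_iff₀ (by positivity)] at h7
  have h9 : (u ^ 2 / 40000) ^ 2 * u ^ 254 = u ^ 258 / 40000 ^ 2 := by
    field_simp
  rw [h9, div_le_iff₀ (by positivity)] at h7
  refine h7.trans (le_of_eq ?_)
  ring

theorem hAsy : StAsy := by
  set K : ℝ := 40000 ^ 2 * 81 * (9 * (2 ^ 26 * (64 * 438486 * 27 * 10 ^ 14 + 3) ^ 6 * 438486 * 3) *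
    10 ^ 14) ^ 9 with hK
  have htend := tendsto_rpow_atTop (show (0 : ℝ) < 1 / 1740 by norm_num)
  obtain ⟨x0, hx0⟩ := Filter.eventually_atTop.1 (htend.eventually_gt_atTop K)
  refine ⟨max 1 ⌈x0⌉₊, ?_⟩
  intro n N Q E hn hnN hnQ hN hQ hyp1 hyp2
  have hn1 : 1 ≤ n := (le_max_left _ _).trans hn
  have hnx : x0 ≤ n := by
    have : ⌈x0⌉₊ ≤ n := (le_max_right _ _).trans hn
    exact (Nat.le_ceil x0).trans (by exact_mod_cast this)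
  have hKn := hx0 n hnx
  set u : ℝ := (n : ℝ) with hu
  have hu1 : 1 ≤ u := by
    rw [hu]
    exact_mod_cast hn1
  have hu0 : 0 < u := by linarith
  set a : ℝ := u ^ ((4 : ℝ) / 3 + 1 / 290) with ha
  set e : ℝ := u ^ ((1 : ℝ) / 109620) with he
  have ha0 : 0 < a := Real.rpow_pos_of_pos hu0 _
  have he1 : 1 ≤ e := Real.one_le_rpow hu1 (by norm_num)
  have ha3 : u ^ 4 ≤ a ^ 3 := by
    rw [ha, ← Real.rpow_natCast, ← Real.rpow_natCast, ← Real.rpow_mul hu0.le]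
    apply Real.rpow_le_rpow_of_exponent_le hu1
    norm_num
  have hL' := log_bd_ASY hu1 (hn1.trans hnN) hN
  rw [← he] at hL'
  have hLL : (Nat.log 2 n : ℝ) + 1 ≤ (Nat.log 2 N : ℝ) + 2 := by
    have : Nat.log 2 n ≤ Nat.log 2 N := Nat.log_mono_right hnN
    have : (Nat.log 2 n : ℝ) ≤ (Nat.log 2 N : ℝ) := by exact_mod_cast this
    linarith
  have hL1 : (1 : ℝ) ≤ (Nat.log 2 n : ℝ) + 1 := by
    have : (0 : ℝ) ≤ (Nat.log 2 n : ℝ) := Nat.cast_nonneg _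
    linarith
  have hNu : u ≤ N := by
    rw [hu]
    exact_mod_cast hnN
  have hQu : u ≤ Q := by
    rw [hu]
    exact_mod_cast hnQ
  set L : ℝ := (Nat.log 2 n : ℝ) + 1 with hL
  set L' : ℝ := (Nat.log 2 N : ℝ) + 2 with hL'd
  set X : ℝ := 64 * L * (N : ℝ) ^ 2 * Q / ((1 / 10 ^ 7) ^ 2 * u ^ 4) with hX
  have hX0 : 0 ≤ X := by positivity
  set M : ℕ := ⌈X⌉₊ + 2 with hM
  have hM1 : X ≤ (M : ℝ) := by
    have := Nat.le_ceil X
    rw [hM]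
    push_cast
    linarith
  have hM2 : (M : ℝ) ≤ X + 3 := by
    have := Nat.ceil_lt_add_one hX0
    rw [hM]
    push_cast
    linarith
  have hQ0 : (0 : ℝ) ≤ Q := Nat.cast_nonneg _
  have hL'0 : 0 ≤ L' := by linarith
  set ρ : ℝ := Real.sqrt (2 ^ 26 * (M : ℝ) ^ 6 * L' * Q) with hρ
  have hρ0 : 0 ≤ ρ := Real.sqrt_nonneg _
  have hρ2 : ρ ^ 2 = 2 ^ 26 * (M : ℝ) ^ 6 * L' * Q := Real.sq_sqrt (by positivity)
  have h1 := hyp1 M ρ (by omega) hρ0 (le_of_eq hρ2.symm)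
  have hf0 : 0 < (1 / 10 ^ 7) * u ^ 2 / (Q : ℝ) := by
    have : (0 : ℝ) < Q := by linarith
    positivity
  have h2 := hyp2 ((1 / 10 ^ 7) * u ^ 2 / Q) ρ hf0 hρ0
  have hcore := core_ASY (C := 438486) hu1 ha3 ha0 he1 (by norm_num) hL1 hLL hL' hNu hN hQu hQ
    hM1 hM2 hρ0 hρ2 h1 h2
  rw [← hK] at hcore
  have h3 : a ^ 193 * e ^ 63 = u ^ ((258 : ℝ) - 1 / 1740) := by
    rw [ha, he, ← Real.rpow_natCast, ← Real.rpow_natCast, ← Real.rpow_mul hu0.le,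
      ← Real.rpow_mul hu0.le, ← Real.rpow_add hu0]
    norm_num
  have h4 : u ^ 258 = u ^ ((258 : ℝ) - 1 / 1740) * u ^ ((1 : ℝ) / 1740) := by
    rw [← Real.rpow_add hu0, ← Real.rpow_natCast]
    norm_num
  rw [mul_assoc, h3, h4, mul_comm] at hcore
  have h5 : 0 < u ^ ((258 : ℝ) - 1 / 1740) := Real.rpow_pos_of_pos hu0 _
  have h6 := le_of_mul_le_mul_right hcore h5
  linarith

end Pool.Agent.Helper12.SR
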